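import Pool.Agent.Helper65.PK.Cone2

open MeasureTheory Matrix
open scoped ENNReal Pointwise

namespace Pool.Agent.Helper65.PK

open H77T2

variable {m : ℕ}

theorem measurable_mulVec (g : Matrix (Fin (m + 1)) (Fin (m + 1)) ℝ) :
    Measurable (fun x : Fin (m + 1) → ℝ => g *ᵥ x) := by
  have : Continuous (fun x : Fin (m + 1) → ℝ => g *ᵥ x) := by fun_prop
  exact this.measurable

theorem normalize_mem {p : Fin (m + 1) → ℝ} (h0 : 0 < p 0) (h1 : 0 < mink m p p) :
    (Real.sqrt (mink m p p))⁻¹ • p ∈ Hyp m := by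
  have h2 : 0 < Real.sqrt (mink m p p) := Real.sqrt_pos.mpr h1
  refine ⟨?_, ?_⟩
  · rw [mink_smul_left, mink_smul_right]
    have h3 : Real.sqrt (mink m p p) ^ 2 = mink m p p := Real.sq_sqrt h1.le
    field_simp
    rw [h3]
  · simp only [Pi.smul_apply, smul_eq_mul]
    positivity

theorem preimage_cone {g : GL (Fin (m + 1)) ℝ} (hg : g ∈ IsomHyp m)
    (E : Set (Fin (m + 1) → ℝ)) :
    (fun x => g.1 *ᵥ x) ⁻¹' cone m E = cone m ((fun x => g.1 *ᵥ x) ⁻¹' E) := by
  ext p
  simp only [cone, Set.mem_preimage, Set.mem_ofPred_eq]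
  rw [isom_mink hg]
  have h1 : ∀ h : 0 < mink m p p, 0 < (g.1 *ᵥ p) 0 ↔ 0 < p 0 := by
    intro h
    have h2 : 0 < Real.sqrt (mink m p p) := Real.sqrt_pos.mpr h
    constructor
    · intro h3
      have h4 := normalize_mem (p := g.1 *ᵥ p) h3 (by rwa [isom_mink hg])
      rw [isom_mink hg, ← mulVec_smul, isom_mem hg] at h4
      have h5 := h4.2
      simp only [Pi.smul_apply, smul_eq_mul] at h5
      exact (mul_pos_iff_of_pos_left (inv_pos.mpr h2)).mp h5
    · intro h3
      have h4 := (isom_mem hg).mpr (normalize_mem h3 h)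
      rw [mulVec_smul] at h4
      have h5 := h4.2
      simp only [Pi.smul_apply, smul_eq_mul] at h5
      exact (mul_pos_iff_of_pos_left (inv_pos.mpr h2)).mp h5
  constructor
  · rintro ⟨a, b, c, d⟩
    refine ⟨(h1 b).mp a, b, c, ?_⟩
    rwa [mulVec_smul]
  · rintro ⟨a, b, c, d⟩
    refine ⟨(h1 b).mpr a, b, c, ?_⟩
    rwa [mulVec_smul] at d

theorem volume_preimage {g : GL (Fin (m + 1)) ℝ} (hg : g ∈ IsomHyp m)
    (A : Set (Fin (m + 1) → ℝ)) : volume ((fun x => g.1 *ᵥ x) ⁻¹' A) = volume A := by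
  have h1 : g.1.det ≠ 0 := by
    have := det_sq hg
    intro h
    rw [h] at this
    norm_num at this
  have h2 : LinearMap.det (Matrix.toLin' g.1) ≠ 0 := by
    rwa [LinearMap.det_toLin']
  have h3 := Measure.addHaar_preimage_linearMap (volume : Measure (Fin (m + 1) → ℝ)) h2 A
  have h4 : (fun x => g.1 *ᵥ x) ⁻¹' A = (Matrix.toLin' g.1) ⁻¹' A := by
    ext x
    simp only [Set.mem_preimage, Matrix.toLin'_apply]
  rw [h4, h3, LinearMap.det_toLin']
  have h5 : |g.1.det⁻¹| = 1 := by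
    rw [abs_inv]
    have h6 : |g.1.det| = 1 := by
      rw [← sq_eq_sq₀ (abs_nonneg _) zero_le_one, sq_abs, det_sq hg, one_pow]
    rw [h6, inv_one]
  rw [h5, ENNReal.ofReal_one, one_mul]

/-- the hyperbolic volume is invariant -/
theorem isom_measurePreserving {g : GL (Fin (m + 1)) ℝ} (hg : g ∈ IsomHyp m) :
    MeasurePreserving (fun x => g.1 *ᵥ x) (hypVol m) (hypVol m) := by
  refine ⟨measurable_mulVec _, ?_⟩
  ext E hE
  rw [Measure.map_apply (measurable_mulVec _) hE, hypVol_eq hE,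
    hypVol_eq (measurable_mulVec g.1 hE), ← preimage_cone hg, volume_preimage hg]

/-- the open ball -/
def ball (m : ℕ) (x : Fin (m + 1) → ℝ) (a : ℝ) : Set (Fin (m + 1) → ℝ) := {y | mink m x y < a}

theorem measurableSet_ball (x : Fin (m + 1) → ℝ) (a : ℝ) : MeasurableSet (ball m x a) := by
  apply measurableSet_lt _ measurable_const
  unfold mink
  fun_prop

theorem hypVol_ball {x : Fin (m + 1) → ℝ} (hx : x ∈ Hyp m) (a : ℝ) :
    hypVol m (ball m x a) = hypVol m (ball m (e0 m) a) := by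
  obtain ⟨g, hg, hgx⟩ := exists_isom hx
  rw [← (isom_measurePreserving hg).measure_preimage
    (measurableSet_ball (e0 m) a).nullMeasurableSet]
  congr 1
  ext y
  show mink m x y < a ↔ mink m (e0 m) (g.1 *ᵥ y) < a
  rw [← hgx, isom_mink hg]

theorem hypVol_compl : hypVol m (Hyp m)ᶜ = 0 := by
  have hH : MeasurableSet (Hyp m) :=
    (measurableSet_eq_fun measurable_mink_self measurable_const).inter
      (measurableSet_lt measurable_const (measurable_pi_apply 0))
  rw [hypVol_eq hH.compl]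
  have : cone m (Hyp m)ᶜ = ∅ := by
    ext p
    simp only [cone, Set.mem_ofPred_eq, Set.mem_compl_iff, Set.mem_empty_iff_false, iff_false]
    rintro ⟨a, b, _, d⟩
    exact d (normalize_mem a b)
  rw [this, measure_empty, mul_zero]

theorem hypVol_ball_pos {a : ℝ} (ha : 1 < a) : 0 < hypVol m (ball m (e0 m) a) := by
  rw [hypVol_apply (measurableSet_ball _ _)]
  set U : Set (Fin m → ℝ) := {w | 0 < qq w ∧ (Real.sqrt (qq w))⁻¹ < a} with hU
  have h1 : {w : Fin m → ℝ | 0 < qq w ∧ kleinPt m w ∈ ball m (e0 m) a} = U := by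
    ext w
    simp only [hU, Set.mem_ofPred_eq, ball, mink_e0_left]
    unfold kleinPt
    simp only [Pi.smul_apply, Fin.cons_zero, smul_eq_mul, mul_one]
    rfl
  rw [h1]
  have hq : qq (0 : Fin m → ℝ) = 1 := by simp [qq]
  have hopen : IsOpen U := by
    have h2 : U = {w | a⁻¹ < Real.sqrt (qq w)} := by
      ext w
      simp only [hU, Set.mem_ofPred_eq]
      constructor
      · rintro ⟨h3, h4⟩
        exact (inv_lt_comm₀ (Real.sqrt_pos.mpr h3) (by linarith)).mp h4
      · intro h3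
        have h4 : 0 < Real.sqrt (qq w) := lt_trans (inv_pos.mpr (by linarith)) h3
        exact ⟨Real.sqrt_pos.mp h4, (inv_lt_comm₀ h4 (by linarith)).mpr h3⟩
    rw [h2]
    exact isOpen_lt continuous_const (continuous_qq.sqrt)
  have h0 : (0 : Fin m → ℝ) ∈ U := by
    refine ⟨by rw [hq]; exact one_pos, ?_⟩
    rw [hq, Real.sqrt_one, inv_one]
    exact ha
  have hpos : 0 < volume U := hopen.measure_pos volume ⟨0, h0⟩
  refine lt_of_lt_of_le hpos ?_
  rw [← setLIntegral_one]
  apply setLIntegral_mono' hopen.measurableSet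
  intro w hw
  rw [← ENNReal.ofReal_one]
  apply ENNReal.ofReal_le_ofReal
  apply Real.one_le_rpow_of_pos_of_le_one_of_nonpos hw.1
  · unfold qq
    have : 0 ≤ ∑ i, w i ^ 2 := Finset.sum_nonneg fun i _ => sq_nonneg _
    linarith
  · have : (0 : ℝ) ≤ m := Nat.cast_nonneg m
    linarith

end Pool.Agent.Helper65.PK
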