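import Pool.Agent.Helper77.T2.Hyp

open MeasureTheory Matrix
open scoped ENNReal

namespace Pool.Agent.Helper65.PK

open H77T2

variable {m : ℕ}

theorem mink_comm (v w : Fin (m + 1) → ℝ) : mink m v w = mink m w v := by
  unfold mink
  rw [mul_comm (v 0)]
  congr 1
  exact Finset.sum_congr rfl fun i _ => mul_comm _ _

theorem mink_add_left (u v w : Fin (m + 1) → ℝ) : mink m (u + v) w = mink m u w + mink m v w := by
  unfold mink
  simp only [Pi.add_apply, add_mul, Finset.sum_add_distrib]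
  ring

theorem mink_smul_left (c : ℝ) (v w : Fin (m + 1) → ℝ) : mink m (c • v) w = c * mink m v w := by
  unfold mink
  simp only [Pi.smul_apply, smul_eq_mul, mul_assoc, mul_sub, Finset.mul_sum]

theorem mink_add_right (u v w : Fin (m + 1) → ℝ) : mink m u (v + w) = mink m u v + mink m u w := by
  rw [mink_comm, mink_add_left, mink_comm v, mink_comm w]

theorem mink_smul_right (c : ℝ) (v w : Fin (m + 1) → ℝ) : mink m v (c • w) = c * mink m v w := by
  rw [mink_comm, mink_smul_left, mink_comm]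

theorem mink_sub_left (u v w : Fin (m + 1) → ℝ) : mink m (u - v) w = mink m u w - mink m v w := by
  have h : u - v = u + (-1 : ℝ) • v := by
    rw [neg_one_smul, sub_eq_add_neg]
  rw [h, mink_add_left, mink_smul_left]
  ring

theorem mink_sub_right (u v w : Fin (m + 1) → ℝ) : mink m u (v - w) = mink m u v - mink m u w := by
  rw [mink_comm, mink_sub_left, mink_comm v, mink_comm w]

/-- the base point -/
def e0 (m : ℕ) : Fin (m + 1) → ℝ := Pi.single 0 1

theorem e0_zero : e0 m 0 = 1 := by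
  simp [e0]

theorem e0_succ (i : Fin m) : e0 m i.succ = 0 := by
  simp [e0]

theorem mink_e0_left (v : Fin (m + 1) → ℝ) : mink m (e0 m) v = v 0 := by
  simp [mink, e0_zero, e0_succ]

theorem mink_e0_right (v : Fin (m + 1) → ℝ) : mink m v (e0 m) = v 0 := by
  rw [mink_comm, mink_e0_left]

theorem e0_mem : e0 m ∈ Hyp m := by
  refine ⟨?_, ?_⟩
  · rw [mink_e0_left, e0_zero]
  · rw [e0_zero]
    exact one_pos

theorem sum_sq {v : Fin (m + 1) → ℝ} (hv : v ∈ Hyp m) : ∑ i : Fin m, v i.succ ^ 2 = v 0 ^ 2 - 1 := by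
  have h := hv.1
  unfold mink at h
  have h2 : ∑ i : Fin m, v i.succ * v i.succ = ∑ i : Fin m, v i.succ ^ 2 :=
    Finset.sum_congr rfl fun i _ => (sq _).symm
  rw [h2] at h
  linarith [sq (v 0)]

theorem one_le_zero {v : Fin (m + 1) → ℝ} (hv : v ∈ Hyp m) : 1 ≤ v 0 := by
  have h := sum_sq hv
  have h2 : 0 ≤ ∑ i : Fin m, v i.succ ^ 2 := Finset.sum_nonneg fun i _ => sq_nonneg _
  nlinarith [hv.2]

theorem abs_sum_le {u v : Fin (m + 1) → ℝ} (hu : u ∈ Hyp m) (hv : v ∈ Hyp m) :
    |∑ i : Fin m, u i.succ * v i.succ| ≤ u 0 * v 0 - 1 := by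
  have h1 := one_le_zero hu
  have h2 := one_le_zero hv
  have h3 : (∑ i : Fin m, u i.succ * v i.succ) ^ 2 ≤
      (∑ i : Fin m, u i.succ ^ 2) * (∑ i : Fin m, v i.succ ^ 2) :=
    Finset.sum_mul_sq_le_sq_mul_sq _ _ _
  rw [sum_sq hu, sum_sq hv] at h3
  have h4 : 0 ≤ u 0 * v 0 - 1 := by nlinarith
  apply abs_le_of_sq_le_sq _ h4
  nlinarith [sq_nonneg (u 0 - v 0)]

theorem one_le_mink {u v : Fin (m + 1) → ℝ} (hu : u ∈ Hyp m) (hv : v ∈ Hyp m) :
    1 ≤ mink m u v := by
  have h := (abs_le.mp (abs_sum_le hu hv)).2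
  unfold mink
  linarith

theorem mink_le {u v : Fin (m + 1) → ℝ} (hu : u ∈ Hyp m) (hv : v ∈ Hyp m) :
    mink m u v ≤ 2 * (u 0 * v 0) := by
  have h := (abs_le.mp (abs_sum_le hu hv)).1
  unfold mink
  linarith

/-- the reflection -/
noncomputable def refl (v : Fin (m + 1) → ℝ) : Matrix (Fin (m + 1)) (Fin (m + 1)) ℝ :=
  Matrix.of fun i j => (if i = j then 1 else 0) -
    2 / mink m v v * (v i * (if j = 0 then v 0 else - v j))

theorem refl_mulVec (v u : Fin (m + 1) → ℝ) :
    refl v *ᵥ u = u - (2 / mink m v v * mink m v u) • v := by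
  ext i
  simp only [refl, mulVec, dotProduct, Matrix.of_apply, Pi.sub_apply, Pi.smul_apply, smul_eq_mul]
  have h1 : ∀ j : Fin (m + 1), ((if i = j then (1 : ℝ) else 0) -
      2 / mink m v v * (v i * (if j = 0 then v 0 else - v j))) * u j =
      (if i = j then u j else 0) - 2 / mink m v v * v i * ((if j = 0 then v 0 else - v j) * u j) := by
    intro j
    split_ifs <;> ring
  rw [Finset.sum_congr rfl fun j _ => h1 j, Finset.sum_sub_distrib, ← Finset.mul_sum,
    Finset.sum_ite_eq, if_pos (Finset.mem_univ _), Fin.sum_univ_succ]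
  have h2 : ∑ j : Fin m, (if j.succ = 0 then v 0 else - v j.succ) * u j.succ =
      - ∑ j : Fin m, v j.succ * u j.succ := by
    rw [← Finset.sum_neg_distrib]
    apply Finset.sum_congr rfl
    intro j _
    rw [if_neg (Fin.succ_ne_zero j)]
    ring
  rw [h2, if_pos rfl]
  unfold mink
  ring

theorem refl_refl {v : Fin (m + 1) → ℝ} (hv : mink m v v ≠ 0) : refl v * refl v = 1 := by
  apply Matrix.mulVec_injective
  ext u : 1
  rw [← mulVec_mulVec, refl_mulVec, refl_mulVec, one_mulVec, mink_sub_right, mink_smul_right]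
  have : 2 / mink m v v * (mink m v u - 2 / mink m v v * mink m v u * mink m v v) =
      - (2 / mink m v v * mink m v u) := by
    field_simp
    ring
  rw [this]
  simp

theorem mink_refl {v : Fin (m + 1) → ℝ} (hv : mink m v v ≠ 0) (u w : Fin (m + 1) → ℝ) :
    mink m (refl v *ᵥ u) (refl v *ᵥ w) = mink m u w := by
  rw [refl_mulVec, refl_mulVec, mink_sub_left, mink_sub_right, mink_sub_right, mink_smul_left,
    mink_smul_left, mink_smul_right, mink_smul_right, mink_comm u v]
  field_simp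
  ring

end Pool.Agent.Helper65.PK
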