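import Pool.Agent.Helper65.PK.Tri

open MeasureTheory Matrix
open scoped ENNReal Pointwise

namespace Pool.Agent.Helper65.PK

open H77T2

variable {m : ℕ}

/-- `1 - |w|^2` -/
noncomputable def qq (w : Fin m → ℝ) : ℝ := 1 - ∑ i, w i ^ 2

theorem measurable_qq : Measurable (qq (m := m)) := by
  unfold qq
  fun_prop

theorem continuous_qq : Continuous (qq (m := m)) := by
  unfold qq
  fun_prop

theorem measurable_klein : Measurable (kleinPt m) := by
  unfold kleinPt
  have h1 : Measurable (fun w : Fin m → ℝ => (Fin.cons 1 w : Fin (m + 1) → ℝ)) := by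
    apply measurable_pi_lambda
    intro i
    refine Fin.cases ?_ (fun i => ?_) i
    · simp only [Fin.cons_zero]
      exact measurable_const
    · simp only [Fin.cons_succ]
      exact measurable_pi_apply i
  have h2 : Measurable (fun w : Fin m → ℝ => (Real.sqrt (1 - ∑ i, w i ^ 2))⁻¹) := by
    fun_prop
  exact h2.smul h1

theorem hypVol_apply {E : Set (Fin (m + 1) → ℝ)} (hE : MeasurableSet E) :
    hypVol m E = ∫⁻ w in {w : Fin m → ℝ | 0 < qq w ∧ kleinPt m w ∈ E},
      ENNReal.ofReal (qq w ^ (-((m : ℝ) + 1) / 2)) := by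
  rw [hypVol, Measure.map_apply measurable_klein hE, withDensity_apply _ (measurable_klein hE),
    Measure.restrict_restrict (measurable_klein hE)]
  congr 2
  ext w
  simp only [Set.mem_inter_iff, Set.mem_preimage, Set.mem_ofPred_eq, qq, sub_pos]
  tauto

/-- the truncated cone over `E` -/
def cone (m : ℕ) (E : Set (Fin (m + 1) → ℝ)) : Set (Fin (m + 1) → ℝ) :=
  {p | 0 < p 0 ∧ 0 < mink m p p ∧ mink m p p ≤ 1 ∧ (Real.sqrt (mink m p p))⁻¹ • p ∈ E}

theorem measurable_mink_self : Measurable (fun p : Fin (m + 1) → ℝ => mink m p p) := by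
  unfold mink
  fun_prop

theorem measurableSet_cone {E : Set (Fin (m + 1) → ℝ)} (hE : MeasurableSet E) :
    MeasurableSet (cone m E) := by
  have h1 : MeasurableSet {p : Fin (m + 1) → ℝ | 0 < p 0} :=
    measurableSet_lt measurable_const (measurable_pi_apply 0)
  have h2 : MeasurableSet {p : Fin (m + 1) → ℝ | 0 < mink m p p} :=
    measurableSet_lt measurable_const measurable_mink_self
  have h3 : MeasurableSet {p : Fin (m + 1) → ℝ | mink m p p ≤ 1} :=
    measurableSet_le measurable_mink_self measurable_const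
  have h4 : Measurable (fun p : Fin (m + 1) → ℝ => (Real.sqrt (mink m p p))⁻¹ • p) :=
    (measurable_mink_self.sqrt.inv).smul measurable_id
  exact h1.inter (h2.inter (h3.inter (h4 hE)))

theorem mink_cons (s : ℝ) (w : Fin m → ℝ) :
    mink m (Fin.cons s (s • w) : Fin (m + 1) → ℝ) (Fin.cons s (s • w) : Fin (m + 1) → ℝ) =
      s ^ 2 * qq w := by
  unfold mink qq
  simp only [Fin.cons_zero, Fin.cons_succ, Pi.smul_apply, smul_eq_mul]
  rw [mul_sub, Finset.mul_sum, mul_one, sq]
  congr 1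
  apply Finset.sum_congr rfl
  intro i _
  ring

theorem mem_cone_cons {E : Set (Fin (m + 1) → ℝ)} {s : ℝ} (hs : 0 < s) (w : Fin m → ℝ) :
    (Fin.cons s (s • w) : Fin (m + 1) → ℝ) ∈ cone m E ↔
      (0 < qq w ∧ kleinPt m w ∈ E) ∧ s ^ 2 * qq w ≤ 1 := by
  have hs2 : 0 < s ^ 2 := by positivity
  have h1 : ∀ h : 0 < qq w, (Real.sqrt (s ^ 2 * qq w))⁻¹ • (Fin.cons s (s • w) : Fin (m + 1) → ℝ) =
      kleinPt m w := by
    intro h
    rw [Real.sqrt_mul hs2.le, Real.sqrt_sq hs.le]
    unfold kleinPt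
    ext i
    have h3 : (1 - ∑ i, w i ^ 2) = qq w := rfl
    rw [h3]
    have h4 : Real.sqrt (qq w) ≠ 0 := (Real.sqrt_pos.mpr h).ne'
    refine Fin.cases ?_ (fun i => ?_) i
    · simp only [Pi.smul_apply, Fin.cons_zero, smul_eq_mul]
      field_simp
    · simp only [Pi.smul_apply, Fin.cons_succ, smul_eq_mul]
      field_simp
  unfold cone
  simp only [Set.mem_ofPred_eq, Fin.cons_zero]
  rw [mink_cons]
  constructor
  · rintro ⟨_, h2, h3, h4⟩
    have h5 : 0 < qq w := (mul_pos_iff_of_pos_left hs2).mp h2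
    exact ⟨⟨h5, by rwa [h1 h5] at h4⟩, h3⟩
  · rintro ⟨⟨h5, h6⟩, h7⟩
    exact ⟨hs, mul_pos hs2 h5, h7, by rwa [h1 h5]⟩

end Pool.Agent.Helper65.PK
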