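import Pool.Agent.Helper65.PK.Cone

open MeasureTheory Matrix
open scoped ENNReal Pointwise

namespace Pool.Agent.Helper65.PK

open H77T2

variable {m : ℕ}

theorem lint_pow {q : ℝ} (hq : 0 < q) :
    ∫⁻ s : ℝ, Set.indicator {s : ℝ | 0 < s ∧ s ^ 2 * q ≤ 1} (fun s => ENNReal.ofReal (s ^ m)) s =
      ENNReal.ofReal (q ^ (-((m : ℝ) + 1) / 2) / (m + 1)) := by
  have hb : 0 < (Real.sqrt q)⁻¹ := inv_pos.mpr (Real.sqrt_pos.mpr hq)
  have h1 : {s : ℝ | 0 < s ∧ s ^ 2 * q ≤ 1} = Set.Ioc 0 (Real.sqrt q)⁻¹ := by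
    ext s
    simp only [Set.mem_ofPred_eq, Set.mem_Ioc]
    apply and_congr_right
    intro hs
    rw [← one_div, le_div_iff₀ (Real.sqrt_pos.mpr hq)]
    have h2 : s ^ 2 * q = (s * Real.sqrt q) ^ 2 := by
      rw [mul_pow, Real.sq_sqrt hq.le]
    rw [h2, sq_le_one_iff₀ (by positivity)]
  rw [h1, lintegral_indicator measurableSet_Ioc,
    ← ofReal_integral_eq_lintegral_ofReal, ← intervalIntegral.integral_of_le hb.le, integral_pow]
  · congr 2
    rw [zero_pow (Nat.succ_ne_zero m), sub_zero, Real.sqrt_eq_rpow, ← Real.rpow_neg hq.le,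
      ← Real.rpow_natCast, ← Real.rpow_mul hq.le]
    congr 1
    push_cast
    ring
  · exact (continuous_pow m).integrableOn_Ioc
  · filter_upwards [ae_restrict_mem measurableSet_Ioc] with s hs
    exact pow_nonneg hs.1.le m

theorem volume_cone {E : Set (Fin (m + 1) → ℝ)} (hE : MeasurableSet E) :
    volume (cone m E) = ∫⁻ w in {w : Fin m → ℝ | 0 < qq w ∧ kleinPt m w ∈ E},
      ENNReal.ofReal (qq w ^ (-((m : ℝ) + 1) / 2) / (m + 1)) := by
  set A : Set (Fin m → ℝ) := {w : Fin m → ℝ | 0 < qq w ∧ kleinPt m w ∈ E} with hAdef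
  have hA : MeasurableSet A :=
    (measurableSet_lt measurable_const measurable_qq).inter (measurable_klein hE)
  have hC := measurableSet_cone hE
  have hmp := (MeasureTheory.volume_preserving_piFinSuccAbove (fun _ : Fin (m + 1) => ℝ) 0).symm
  rw [← hmp.measure_preimage hC.nullMeasurableSet]
  rw [Measure.volume_eq_prod, Measure.prod_apply (MeasurableEquiv.measurable _ hC)]
  -- the set for Tonelli
  set D : Set (ℝ × (Fin m → ℝ)) := {p | (0 < p.1 ∧ p.2 ∈ A) ∧ p.1 ^ 2 * qq p.2 ≤ 1} with hDdef
  have hD : MeasurableSet D := by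
    apply MeasurableSet.inter
    · exact (measurableSet_lt measurable_const measurable_fst).inter (measurable_snd hA)
    · exact measurableSet_le ((measurable_fst.pow_const 2).mul (measurable_qq.comp measurable_snd))
        measurable_const
  have h1 : ∀ s : ℝ, volume (Prod.mk s ⁻¹' ((MeasurableEquiv.piFinSuccAbove
      (fun _ : Fin (m + 1) => ℝ) 0).symm ⁻¹' cone m E)) =
      ∫⁻ w : Fin m → ℝ, D.indicator (fun p => ENNReal.ofReal (p.1 ^ m)) (s, w) := by
    intro s
    have hpre : Prod.mk s ⁻¹' ((MeasurableEquiv.piFinSuccAbove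
      (fun _ : Fin (m + 1) => ℝ) 0).symm ⁻¹' cone m E) =
      {u : Fin m → ℝ | (Fin.cons s u : Fin (m + 1) → ℝ) ∈ cone m E} := by
      ext u
      simp only [Set.mem_preimage, Set.mem_ofPred_eq]
      have : (MeasurableEquiv.piFinSuccAbove (fun _ : Fin (m + 1) => ℝ) 0).symm (s, u) =
          (Fin.cons s u : Fin (m + 1) → ℝ) := by
        ext i
        refine Fin.cases ?_ (fun i => ?_) i
        · simp [MeasurableEquiv.piFinSuccAbove]
        · simp [MeasurableEquiv.piFinSuccAbove]
      rw [this]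
    rw [hpre]
    by_cases hs : 0 < s
    · have h2 : {u : Fin m → ℝ | (Fin.cons s u : Fin (m + 1) → ℝ) ∈ cone m E} =
          s • {w : Fin m → ℝ | w ∈ A ∧ s ^ 2 * qq w ≤ 1} := by
        ext u
        rw [Set.mem_smul_set_iff_inv_smul_mem₀ hs.ne']
        have h3 : u = s • (s⁻¹ • u) := by
          rw [smul_smul, mul_inv_cancel₀ hs.ne', one_smul]
        simp only [Set.mem_ofPred_eq]
        conv_lhs => rw [h3]
        exact mem_cone_cons hs _
      have hm : MeasurableSet {w : Fin m → ℝ | w ∈ A ∧ s ^ 2 * qq w ≤ 1} :=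
        hA.inter (measurableSet_le (measurable_const.mul measurable_qq) measurable_const)
      rw [h2, Measure.addHaar_smul, Module.finrank_fin_fun, abs_of_nonneg (by positivity),
        ← lintegral_indicator_one hm, ← lintegral_const_mul _ (measurable_one.indicator hm)]
      apply lintegral_congr
      intro w
      by_cases hw : w ∈ A ∧ s ^ 2 * qq w ≤ 1
      · rw [Set.indicator_of_mem (show w ∈ {w : Fin m → ℝ | w ∈ A ∧ s ^ 2 * qq w ≤ 1} from hw),
          Set.indicator_of_mem (show (s, w) ∈ D from ⟨⟨hs, hw.1⟩, hw.2⟩)]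
        simp
      · rw [Set.indicator_of_notMem (show w ∉ {w : Fin m → ℝ | w ∈ A ∧ s ^ 2 * qq w ≤ 1} from hw),
          Set.indicator_of_notMem (show (s, w) ∉ D from fun h => hw ⟨h.1.2, h.2⟩), mul_zero]
    · have h2 : {u : Fin m → ℝ | (Fin.cons s u : Fin (m + 1) → ℝ) ∈ cone m E} = ∅ := by
        ext u
        simp only [Set.mem_ofPred_eq, Set.mem_empty_iff_false, iff_false]
        intro h
        apply hs
        have := h.1
        rwa [Fin.cons_zero] at this
      rw [h2, measure_empty]
      symm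
      rw [lintegral_eq_zero_iff']
      · filter_upwards with w
        rw [Set.indicator_of_notMem (show (s, w) ∉ D from fun h => hs h.1.1)]
        rfl
      · exact (((measurable_fst.pow_const m).ennreal_ofReal.indicator hD).comp
          measurable_prodMk_left).aemeasurable
  rw [lintegral_congr h1]
  rw [lintegral_lintegral_swap]
  · rw [← lintegral_indicator hA]
    apply lintegral_congr
    intro w
    by_cases hw : w ∈ A
    · rw [Set.indicator_of_mem hw, ← lint_pow hw.1]
      apply lintegral_congr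
      intro s
      by_cases hs : 0 < s ∧ s ^ 2 * qq w ≤ 1
      · rw [Set.indicator_of_mem (show (s, w) ∈ D from ⟨⟨hs.1, hw⟩, hs.2⟩),
          Set.indicator_of_mem (show s ∈ {s : ℝ | 0 < s ∧ s ^ 2 * qq w ≤ 1} from hs)]
      · rw [Set.indicator_of_notMem (show (s, w) ∉ D from fun h => hs ⟨h.1.1, h.2⟩),
          Set.indicator_of_notMem (show s ∉ {s : ℝ | 0 < s ∧ s ^ 2 * qq w ≤ 1} from hs)]
    · rw [Set.indicator_of_notMem hw]
      have : ∀ s : ℝ, D.indicator (fun p => ENNReal.ofReal (p.1 ^ m)) (s, w) = 0 := by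
        intro s
        rw [Set.indicator_of_notMem (show (s, w) ∉ D from fun h => hw h.1.2)]
      simp only [this, lintegral_zero]
  · exact ((measurable_fst.pow_const m).ennreal_ofReal.indicator hD).aemeasurable

theorem hypVol_eq {E : Set (Fin (m + 1) → ℝ)} (hE : MeasurableSet E) :
    hypVol m E = ENNReal.ofReal (m + 1) * volume (cone m E) := by
  rw [volume_cone hE, hypVol_apply hE, ← lintegral_const_mul]
  · apply lintegral_congr
    intro w
    rw [← ENNReal.ofReal_mul (by positivity)]
    congr 1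
    field_simp
  · have := measurable_qq (m := m)
    fun_prop

end Pool.Agent.Helper65.PK
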