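import Pool.Agent.Helper65.PK.Inv

open MeasureTheory Matrix
open scoped ENNReal Pointwise

namespace Pool.Agent.Helper65.PK

open H77T2

variable {m : ℕ}

/-- number of group elements that move `y` into a ball -/
theorem encard_le {L : Subgroup (GL (Fin (m + 1)) ℝ)} (hL : L ≤ IsomHyp m) {N : ℕ}
    (hN : ∀ x ∈ Hyp m,
      {g : GL (Fin (m + 1)) ℝ | g ∈ L ∧ mink m x (g.1 *ᵥ x) ≤ 8}.encard ≤ N)
    {x y : Fin (m + 1) → ℝ} (hx : x ∈ Hyp m) (hy : y ∈ Hyp m) :
    {g : L | (g⁻¹ : L).1.1 *ᵥ y ∈ ball m x 2}.encard ≤ N := by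
  rcases Set.eq_empty_or_nonempty {g : L | (g⁻¹ : L).1.1 *ᵥ y ∈ ball m x 2} with h | ⟨g₀, hg₀⟩
  · rw [h, Set.encard_empty]
    exact zero_le
  set z := (g₀⁻¹ : L).1.1 *ᵥ y with hz
  have hzH : z ∈ Hyp m := (isom_mem (hL (g₀⁻¹ : L).2)).mpr hy
  refine le_trans ?_ (hN z hzH)
  apply Set.encard_le_encard_of_injOn (f := fun g : L => ((g⁻¹ * g₀ : L) : GL (Fin (m + 1)) ℝ))
  · intro g hg
    refine ⟨(g⁻¹ * g₀ : L).2, ?_⟩
    have h1 : ((g⁻¹ * g₀ : L) : GL (Fin (m + 1)) ℝ).1 *ᵥ z = (g⁻¹ : L).1.1 *ᵥ y := by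
      rw [hz, mulVec_mulVec]
      congr 1
      rw [← Units.val_mul, ← Subgroup.coe_mul, mul_assoc, mul_inv_cancel, mul_one]
    rw [h1]
    have h2 : (g⁻¹ : L).1.1 *ᵥ y ∈ Hyp m := (isom_mem (hL (g⁻¹ : L).2)).mpr hy
    have h3 : mink m x z < 2 := hg₀
    have h4 : mink m x ((g⁻¹ : L).1.1 *ᵥ y) < 2 := hg
    have h5 := tri hzH hx h2
    rw [mink_comm z x] at h5
    have h6 := one_le_mink hx hzH
    have h7 := one_le_mink hx h2
    nlinarith
  · intro g _ g' _ h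
    have h1 : (g⁻¹ * g₀ : L) = g'⁻¹ * g₀ := Subtype.ext h
    exact inv_injective (mul_right_cancel h1)

/-- the translates of the ball -/
def LB (L : Subgroup (GL (Fin (m + 1)) ℝ)) (x : Fin (m + 1) → ℝ) : Set (Fin (m + 1) → ℝ) :=
  {y | ∃ g ∈ L, g.1 *ᵥ y ∈ ball m x 2}

theorem measurableSet_LB (L : Subgroup (GL (Fin (m + 1)) ℝ)) [Countable L]
    (x : Fin (m + 1) → ℝ) : MeasurableSet (LB L x) := by
  have h : LB L x = ⋃ g : L, (fun y => g.1.1 *ᵥ y) ⁻¹' ball m x 2 := by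
    ext y
    simp only [LB, Set.mem_ofPred_eq, Set.mem_iUnion, Set.mem_preimage, Subtype.exists,
      exists_prop]
  rw [h]
  exact MeasurableSet.iUnion fun g => measurable_mulVec _ (measurableSet_ball _ _)

theorem fund_bound {L : Subgroup (GL (Fin (m + 1)) ℝ)} (hL : L ≤ IsomHyp m) [Countable L]
    {F : Set (Fin (m + 1) → ℝ)} (hF : MeasurableSet F)
    (hcov : ∀ x ∈ Hyp m, ∃ g ∈ L, g.1 *ᵥ x ∈ F) {N : ℕ}
    (hN : ∀ x ∈ Hyp m,
      {g : GL (Fin (m + 1)) ℝ | g ∈ L ∧ mink m x (g.1 *ᵥ x) ≤ 8}.encard ≤ N)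
    {x : Fin (m + 1) → ℝ} (hx : x ∈ Hyp m) :
    hypVol m (ball m x 2) ≤ N * hypVol m (F ∩ LB L x) := by
  have hB : MeasurableSet (ball m x 2) := measurableSet_ball x 2
  have h1 : hypVol m (ball m x 2) ≤
      ∑' g : L, hypVol m (ball m x 2 ∩ (fun y => g.1.1 *ᵥ y) ⁻¹' F) := by
    refine le_trans ?_ (measure_iUnion_le _)
    rw [← measure_inter_conull (s := ball m x 2) (t := Hyp m) (by exact hypVol_compl)]
    apply measure_mono
    rintro y ⟨hy, hyH⟩
    obtain ⟨g, hg, hgy⟩ := hcov y hyH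
    exact Set.mem_iUnion.mpr ⟨⟨g, hg⟩, hy, hgy⟩
  refine h1.trans ?_
  have h2 : ∀ g : L, hypVol m (ball m x 2 ∩ (fun y => g.1.1 *ᵥ y) ⁻¹' F) =
      ∫⁻ y in F, Set.indicator {y | (g⁻¹ : L).1.1 *ᵥ y ∈ ball m x 2} 1 y ∂(hypVol m) := by
    intro g
    have hm1 : MeasurableSet (ball m x 2 ∩ (fun y => g.1.1 *ᵥ y) ⁻¹' F) :=
      hB.inter (measurable_mulVec _ hF)
    have hm2 : MeasurableSet {y | (g⁻¹ : L).1.1 *ᵥ y ∈ ball m x 2} := measurable_mulVec _ hB
    rw [← (isom_measurePreserving (hL (g⁻¹ : L).2)).measure_preimage hm1.nullMeasurableSet,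
      lintegral_indicator_one hm2, Measure.restrict_apply hm2]
    congr 1
    ext y
    simp only [Set.mem_preimage, Set.mem_inter_iff, Set.mem_ofPred_eq]
    have : g.1.1 *ᵥ ((g⁻¹ : L).1.1 *ᵥ y) = y := mulVec_inv g.1 y
    rw [this]
  rw [tsum_congr h2, ← lintegral_tsum]
  · have h3 : ∫⁻ y in F, ∑' g : L, Set.indicator {y | (g⁻¹ : L).1.1 *ᵥ y ∈ ball m x 2} 1 y
        ∂(hypVol m) ≤ ∫⁻ y in F, N * Set.indicator (LB L x) 1 y ∂(hypVol m) := by
      apply lintegral_mono_ae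
      have h4 : ∀ᵐ y ∂(hypVol m), y ∈ Hyp m := by
        rw [ae_iff]
        exact hypVol_compl
      filter_upwards [ae_restrict_of_ae h4] with y hy
      by_cases hyL : y ∈ LB L x
      · rw [Set.indicator_of_mem hyL]
        have h5 := encard_le hL hN hx hy
        have h6 : {g : L | (g⁻¹ : L).1.1 *ᵥ y ∈ ball m x 2}.Finite :=
          Set.finite_of_encard_le_coe h5
        rw [tsum_eq_sum (s := h6.toFinset)]
        · refine le_trans (Finset.sum_le_card_nsmul _ _ 1 ?_) ?_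
          · intro g _
            classical
            rw [Set.indicator_apply]
            split_ifs <;> simp
          · rw [h6.encard_eq_coe_toFinset_card] at h5
            simp only [nsmul_eq_mul, Pi.one_apply, mul_one]
            exact_mod_cast h5
        · intro g hg
          rw [Set.Finite.mem_toFinset] at hg
          apply Set.indicator_of_notMem
          exact hg
      · have h5 : ∀ g : L, Set.indicator {y | (g⁻¹ : L).1.1 *ᵥ y ∈ ball m x 2}
            (1 : (Fin (m + 1) → ℝ) → ℝ≥0∞) y = 0 := by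
          intro g
          apply Set.indicator_of_notMem
          intro h
          exact hyL ⟨(g⁻¹ : L).1, (g⁻¹ : L).2, h⟩
        simp only [h5, tsum_zero]
        exact zero_le
    refine h3.trans ?_
    rw [lintegral_const_mul _ (measurable_one.indicator (measurableSet_LB L x)),
      lintegral_indicator_one (measurableSet_LB L x), Measure.restrict_apply (measurableSet_LB L x),
      Set.inter_comm]
  · intro g
    exact (measurable_one.indicator (measurable_mulVec _ hB)).aemeasurable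

/-- a packing -/
theorem card_mul_le {L : Subgroup (GL (Fin (m + 1)) ℝ)} (hL : L ≤ IsomHyp m) [Countable L]
    {F : Set (Fin (m + 1) → ℝ)} (hF : MeasurableSet F)
    (hcov : ∀ x ∈ Hyp m, ∃ g ∈ L, g.1 *ᵥ x ∈ F) {N : ℕ}
    (hN : ∀ x ∈ Hyp m,
      {g : GL (Fin (m + 1)) ℝ | g ∈ L ∧ mink m x (g.1 *ᵥ x) ≤ 8}.encard ≤ N)
    (T : Finset (Fin (m + 1) → ℝ)) (hT : ∀ x ∈ T, x ∈ Hyp m)
    (hT2 : ∀ x ∈ T, ∀ y ∈ T, x ≠ y → ∀ g ∈ L, 8 ≤ mink m x (g.1 *ᵥ y)) :
    (T.card : ℝ≥0∞) * hypVol m (ball m (e0 m) 2) ≤ N * hypVol m F := by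
  have h1 : (T.card : ℝ≥0∞) * hypVol m (ball m (e0 m) 2) =
      ∑ x ∈ T, hypVol m (ball m x 2) := by
    rw [Finset.sum_congr rfl fun x hx => hypVol_ball (hT x hx) 2, Finset.sum_const, nsmul_eq_mul]
  rw [h1]
  refine (Finset.sum_le_sum fun x hx => fund_bound hL hF hcov hN (hT x hx)).trans ?_
  rw [← Finset.mul_sum]
  gcongr
  rw [← measure_biUnion_finset₀ ?_ (fun x _ =>
    (hF.inter (measurableSet_LB L x)).nullMeasurableSet)]
  · apply measure_mono
    intro y hy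
    simp only [Set.mem_iUnion, Set.mem_inter_iff, exists_prop] at hy
    obtain ⟨_, _, h, _⟩ := hy
    exact h
  · intro x hx y hy hxy
    have h2 : F ∩ LB L x ∩ (F ∩ LB L y) ⊆ (Hyp m)ᶜ := by
      rintro z ⟨⟨_, g, hg, hgz⟩, _, h, hh, hhz⟩ hz
      have h3 : mink m x (g.1 *ᵥ z) < 2 := hgz
      have h4 : mink m y (h.1 *ᵥ z) < 2 := hhz
      have h5 : (g⁻¹).1 *ᵥ x ∈ Hyp m := (isom_mem (hL (L.inv_mem hg))).mpr (hT x hx)
      have h6 : (h⁻¹).1 *ᵥ y ∈ Hyp m := (isom_mem (hL (L.inv_mem hh))).mpr (hT y hy)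
      have h7 := tri h5 hz h6
      have h8 : mink m ((g⁻¹).1 *ᵥ x) z = mink m x (g.1 *ᵥ z) := by
        rw [isom_mink_inv (hL (L.inv_mem hg)), inv_inv]
      have h9 : mink m z ((h⁻¹).1 *ᵥ y) = mink m y (h.1 *ᵥ z) := by
        rw [mink_comm, isom_mink_inv (hL (L.inv_mem hh)), inv_inv]
      have h10 : mink m ((g⁻¹).1 *ᵥ x) ((h⁻¹).1 *ᵥ y) = mink m x ((g * h⁻¹).1 *ᵥ y) := by
        rw [isom_mink_inv (hL (L.inv_mem hg)), inv_inv, mulVec_mulVec, ← Units.val_mul]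
      have h11 := hT2 x hx y hy hxy (g * h⁻¹) (L.mul_mem hg (L.inv_mem hh))
      rw [h10, h8, h9] at h7
      have h12 := one_le_mink (hT x hx) ((isom_mem (hL hg)).mpr hz)
      have h13 := one_le_mink (hT y hy) ((isom_mem (hL hh)).mpr hz)
      nlinarith
    have h3 : hypVol m (F ∩ LB L x ∩ (F ∩ LB L y)) = 0 := measure_mono_null h2 hypVol_compl
    exact h3

/-- a group with finite covolume and uniformly few small displacements is cocompact -/
theorem packing {L : Subgroup (GL (Fin (m + 1)) ℝ)} (hL : L ≤ IsomHyp m) [Countable L]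
    {F : Set (Fin (m + 1) → ℝ)} (hF : MeasurableSet F) (hFvol : hypVol m F < ⊤)
    (hcov : ∀ x ∈ Hyp m, ∃ g ∈ L, g.1 *ᵥ x ∈ F) {N : ℕ}
    (hN : ∀ x ∈ Hyp m,
      {g : GL (Fin (m + 1)) ℝ | g ∈ L ∧ mink m x (g.1 *ᵥ x) ≤ 8}.encard ≤ N) :
    ∃ R : ℝ, ∀ x ∈ Hyp m, ∃ g ∈ L, (g.1 *ᵥ x) 0 ≤ R := by
  by_contra hcon
  push Not at hcon
  have key : ∀ k : ℕ, ∃ T : Finset (Fin (m + 1) → ℝ), T.card = k ∧ (∀ x ∈ T, x ∈ Hyp m) ∧
      (∀ x ∈ T, ∀ y ∈ T, x ≠ y → ∀ g ∈ L, 8 ≤ mink m x (g.1 *ᵥ y)) := by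
    intro k
    induction k with
    | zero => exact ⟨∅, rfl, by simp, by simp⟩
    | succ k ih =>
      classical
      obtain ⟨T, hTk, hTH, hT2⟩ := ih
      obtain ⟨z, hz, hzg⟩ := hcon (16 * ∑ x ∈ T, x 0)
      have h1 : ∀ x ∈ T, x 0 ≤ ∑ x ∈ T, x 0 := fun x hx =>
        Finset.single_le_sum (f := fun x : Fin (m + 1) → ℝ => x 0)
          (fun y hy => (hTH y hy).2.le) hx
      have h2 : ∀ x ∈ T, ∀ g ∈ L, 8 ≤ mink m x (g.1 *ᵥ z) := by
        intro x hx g hg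
        have h3 := hzg g hg
        have h4 := tri e0_mem (hTH x hx) ((isom_mem (hL hg)).mpr hz)
        rw [mink_e0_left, mink_e0_left] at h4
        have h5 := h1 x hx
        have h6 := (hTH x hx).2
        by_contra h7
        push Not at h7
        have h8 : x 0 * mink m x (g.1 *ᵥ z) ≤ x 0 * 8 := by
          apply mul_le_mul_of_nonneg_left h7.le h6.le
        linarith
      have h3 : z ∉ T := by
        intro hzT
        have h4 := hzg 1 (one_mem _)
        rw [Units.val_one, one_mulVec] at h4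
        have h5 := h1 z hzT
        have h6 := hz.2
        linarith
      refine ⟨insert z T, ?_, ?_, ?_⟩
      · rw [Finset.card_insert_of_notMem h3, hTk]
      · intro x hx
        rcases Finset.mem_insert.mp hx with rfl | hx
        · exact hz
        · exact hTH x hx
      · intro x hx y hy hxy g hg
        rcases Finset.mem_insert.mp hx with hx' | hx'
        · rcases Finset.mem_insert.mp hy with hy' | hy'
          · exact absurd (hx'.trans hy'.symm) hxy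
          · rw [hx', mink_comm, isom_mink_inv (hL hg)]
            exact h2 y hy' g⁻¹ (L.inv_mem hg)
        · rcases Finset.mem_insert.mp hy with hy' | hy'
          · rw [hy']
            exact h2 x hx' g hg
          · exact hT2 x hx' y hy' hxy g hg
  have h1 : (N : ℝ≥0∞) * hypVol m F ≠ ⊤ := ENNReal.mul_ne_top (ENNReal.natCast_ne_top N) hFvol.ne
  obtain ⟨k, hk⟩ := ENNReal.exists_nat_mul_gt (hypVol_ball_pos (m := m) one_lt_two).ne' h1
  obtain ⟨T, hTk, hTH, hT2⟩ := key k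
  have h2 := card_mul_le hL hF hcov hN T hTH hT2
  rw [hTk] at h2
  exact absurd h2 (not_le.mpr hk)

end Pool.Agent.Helper65.PK
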