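import Pool.Agent.Helper65.PK.Basic

open MeasureTheory Matrix
open scoped ENNReal

namespace Pool.Agent.Helper65.PK

open H77T2

variable {m : ℕ}

theorem isom_mink {g : GL (Fin (m + 1)) ℝ} (hg : g ∈ IsomHyp m) (v w : Fin (m + 1) → ℝ) :
    mink m (g.1 *ᵥ v) (g.1 *ᵥ w) = mink m v w := hg.1 v w

theorem inv_mulVec (g : GL (Fin (m + 1)) ℝ) (v : Fin (m + 1) → ℝ) :
    (g⁻¹).1 *ᵥ (g.1 *ᵥ v) = v := by
  rw [mulVec_mulVec, ← Units.val_mul, inv_mul_cancel, Units.val_one, one_mulVec]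

theorem mulVec_inv (g : GL (Fin (m + 1)) ℝ) (v : Fin (m + 1) → ℝ) :
    g.1 *ᵥ ((g⁻¹).1 *ᵥ v) = v := by
  rw [mulVec_mulVec, ← Units.val_mul, mul_inv_cancel, Units.val_one, one_mulVec]

theorem isom_mem {g : GL (Fin (m + 1)) ℝ} (hg : g ∈ IsomHyp m) {v : Fin (m + 1) → ℝ} :
    g.1 *ᵥ v ∈ Hyp m ↔ v ∈ Hyp m := by
  refine ⟨fun h => ?_, fun h => hg.2 v h⟩
  have h1 := ((IsomHyp m).inv_mem hg).2 _ h
  rwa [inv_mulVec] at h1

theorem isom_mink_inv {g : GL (Fin (m + 1)) ℝ} (hg : g ∈ IsomHyp m) (v w : Fin (m + 1) → ℝ) :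
    mink m (g.1 *ᵥ v) w = mink m v ((g⁻¹).1 *ᵥ w) := by
  rw [← isom_mink hg v, mulVec_inv]

/-- transitivity -/
theorem exists_isom {x : Fin (m + 1) → ℝ} (hx : x ∈ Hyp m) :
    ∃ g ∈ IsomHyp m, g.1 *ᵥ x = e0 m := by
  by_cases hxe : x = e0 m
  · exact ⟨1, one_mem _, by rw [Units.val_one, one_mulVec, hxe]⟩
  have h1 := one_le_zero hx
  have h2 : mink m (e0 m - x) (e0 m - x) = 2 - 2 * x 0 := by
    rw [mink_sub_left, mink_sub_right, mink_sub_right, mink_e0_left, mink_e0_left, mink_e0_right,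
      hx.1, e0_zero]
    ring
  have h3 : x 0 ≠ 1 := by
    intro h
    apply hxe
    have h4 := sum_sq hx
    rw [h] at h4
    have h5 : ∀ i : Fin m, x i.succ ^ 2 = 0 := by
      have h6 : ∑ i : Fin m, x i.succ ^ 2 = 0 := by rw [h4]; norm_num
      intro i
      exact (Finset.sum_eq_zero_iff_of_nonneg fun i _ => sq_nonneg _).mp h6 i (Finset.mem_univ _)
    ext i
    refine Fin.cases ?_ (fun i => ?_) i
    · rw [h, e0_zero]
    · rw [e0_succ]
      exact pow_eq_zero_iff two_ne_zero |>.mp (h5 i)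
  have h4 : mink m (e0 m - x) (e0 m - x) ≠ 0 := by
    rw [h2]
    intro h
    apply h3
    linarith
  have h5 : refl (e0 m - x) *ᵥ x = e0 m := by
    rw [refl_mulVec, h2]
    have h6 : mink m (e0 m - x) x = x 0 - 1 := by
      rw [mink_sub_left, mink_e0_left, hx.1]
    rw [h6]
    have h7 : 2 / (2 - 2 * x 0) * (x 0 - 1) = -1 := by
      have : (2 - 2 * x 0) ≠ 0 := by
        intro h
        apply h3
        linarith
      field_simp
      ring
    rw [h7]
    simp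
  have h6 : ∀ u ∈ Hyp m, refl (e0 m - x) *ᵥ u ∈ Hyp m := by
    intro u hu
    refine ⟨?_, ?_⟩
    · rw [mink_refl h4, hu.1]
    · have h7 := mink_refl h4 u x
      rw [h5, mink_e0_right] at h7
      rw [h7]
      linarith [one_le_mink hu hx]
  refine ⟨⟨refl (e0 m - x), refl (e0 m - x), refl_refl h4, refl_refl h4⟩, ⟨?_, ?_⟩, h5⟩
  · intro v w
    exact mink_refl h4 v w
  · intro v hv
    exact h6 v hv

theorem tri {x y z : Fin (m + 1) → ℝ} (hx : x ∈ Hyp m) (hy : y ∈ Hyp m) (hz : z ∈ Hyp m) :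
    mink m x z ≤ 2 * (mink m x y * mink m y z) := by
  obtain ⟨g, hg, hgy⟩ := exists_isom hy
  rw [← isom_mink hg x z, ← isom_mink hg x y, ← isom_mink hg y z, hgy, mink_e0_left, mink_e0_right]
  exact mink_le ((isom_mem hg).mpr hx) ((isom_mem hg).mpr hz)

/-- the matrix of the form -/
noncomputable def JJ (m : ℕ) : Matrix (Fin (m + 1)) (Fin (m + 1)) ℝ :=
  Matrix.diagonal (fun i => if i = 0 then 1 else -1)

theorem mink_eq (v w : Fin (m + 1) → ℝ) : mink m v w = v ⬝ᵥ (JJ m *ᵥ w) := by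
  unfold mink JJ dotProduct
  rw [Fin.sum_univ_succ, mulVec_diagonal, if_pos rfl, one_mul, sub_eq_add_neg,
    ← Finset.sum_neg_distrib]
  congr 1
  apply Finset.sum_congr rfl
  intro i _
  rw [mulVec_diagonal, if_neg (Fin.succ_ne_zero i)]
  ring

theorem det_sq {g : GL (Fin (m + 1)) ℝ} (hg : g ∈ IsomHyp m) : g.1.det ^ 2 = 1 := by
  have h1 : g.1ᵀ * JJ m * g.1 = JJ m := by
    apply Matrix.mulVec_injective
    ext w : 1
    apply dotProduct_eq
    intro v
    rw [dotProduct_comm, dotProduct_comm _ v, ← mink_eq, ← isom_mink hg, mink_eq,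
      ← mulVec_mulVec, ← mulVec_mulVec, dotProduct_mulVec, vecMul_transpose]
  have h2 := congrArg Matrix.det h1
  rw [det_mul, det_mul, det_transpose] at h2
  have h3 : (JJ m).det ≠ 0 := by
    rw [JJ, det_diagonal]
    apply Finset.prod_ne_zero_iff.mpr
    intro i _
    split_ifs <;> norm_num
  have h4 : g.1.det ^ 2 * (JJ m).det = 1 * (JJ m).det := by
    rw [one_mul]
    nth_rewrite 2 [← h2]
    ring
  exact mul_right_cancel₀ h3 h4

end Pool.Agent.Helper65.PK
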